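import Mathlib
import Pool.Agent.H219R2.DS.Conv

/-!
# The ternary zigzag chain

Ternary analogue (coefficients in `{-2,...,2}`) of the zigzag chain of helper219
(`Pool.Agent.H219R2.DS`): `3 w n = w (n-1) + 2 w (prev n)`, where `prev n` is the last index before
`n` with the same value of `zig`, and the hub `1` if there is none; `w 0 = 0`.
`X p n l` is `3 ^ n` times the value of the last element with label `l`.
-/

set_option autoImplicit false

namespace Pool.Agent.H521R3.TZ

open Finset
open Pool.Agent.H219R2.DS (zig zig_le zig_zero zig_mul zig_one zig_step zig_ne sum_split sum_update)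

/-- Scaled states of the chain. -/
def X (p : ℕ) : ℕ → ℕ → ℤ
  | 0 => fun l => if l = 0 then 0 else 1
  | (n + 1) => fun l =>
      if l = zig p (n + 1) then X p n (zig p n) + 2 * X p n (zig p (n + 1)) else 3 * X p n l

lemma X_self (p n : ℕ) :
    X p (n + 1) (zig p (n + 1)) = X p n (zig p n) + 2 * X p n (zig p (n + 1)) := by
  simp [X]

lemma X_other (p n l : ℕ) (hl : l ≠ zig p (n + 1)) : X p (n + 1) l = 3 * X p n l := by
  simp [X, hl]

lemma X_mod (p : ℕ) (hp : 1 ≤ p) (n : ℕ) : X p (n + 1) (zig p (n + 1)) % 3 = 2 := by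
  induction n with
  | zero =>
    rw [X_self, zig_zero, zero_add, zig_one p hp]
    simp [X]
  | succ n ih =>
    rw [X_self]
    have h1 := zig_ne p (n + 1) hp
    rw [X_other p n (zig p (n + 1 + 1)) h1]
    omega

/-- The value equation at stage `n`. -/
def EE (p : ℕ) (c : ℕ → ℤ) (cH : ℤ) (n : ℕ) (A : ℤ) (b : ℕ → ℤ) : Prop :=
  ∑ m ∈ range (n + 1), c m * (3 ^ (n - m) * X p m (zig p m)) + cH * 3 ^ n +
    A * X p n (zig p n) + ∑ l ∈ range (p + 1), 2 * b l * X p n l = 0

/-- The counting equation at stage `n`. -/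
def QQ (p : ℕ) (c : ℕ → ℤ) (cH : ℤ) (n : ℕ) (A : ℤ) (b : ℕ → ℤ) : Prop :=
  ∑ m ∈ range (n + 1), c m + cH + A + ∑ l ∈ range (p + 1), 2 * b l = 0

lemma sum_update2 (p z : ℕ) (hz : z ≤ p) (b : ℕ → ℤ) (f : ℤ) (G : ℕ → ℤ) :
    ∑ l ∈ range (p + 1), 2 * Function.update b z f l * G l =
      2 * f * G z + ∑ l ∈ (range (p + 1)).erase z, 2 * b l * G l := by
  have h := sum_update p z hz b f (fun l => 2 * G l)
  have h1 : ∑ l ∈ range (p + 1), 2 * Function.update b z f l * G l =
      ∑ l ∈ range (p + 1), Function.update b z f l * (2 * G l) :=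
    Finset.sum_congr rfl (fun l _ => by ring)
  have h2 : ∑ l ∈ (range (p + 1)).erase z, 2 * b l * G l =
      ∑ l ∈ (range (p + 1)).erase z, b l * (2 * G l) :=
    Finset.sum_congr rfl (fun l _ => by ring)
  rw [h1, h2, h]
  ring

/-- One firing step. -/
lemma step_down (p : ℕ) (hp : 1 ≤ p) (c : ℕ → ℤ) (cH : ℤ) (n : ℕ) (A : ℤ) (b : ℕ → ℤ)
    (hE : EE p c cH (n + 1) A b) (hQ : QQ p c cH (n + 1) A b) :
    ∃ f : ℤ, 3 * f = c (n + 1) + A + 2 * b (zig p (n + 1)) ∧
      EE p c cH n f (Function.update b (zig p (n + 1)) f) ∧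
      QQ p c cH n f (Function.update b (zig p (n + 1)) f) := by
  set z := zig p (n + 1) with hz
  have hzp : z ≤ p := zig_le p (n + 1)
  have hv := X_mod p hp n
  rw [← hz] at hv
  have e1 : ∑ m ∈ range (n + 1 + 1), c m * (3 ^ (n + 1 - m) * X p m (zig p m)) =
      3 * (∑ m ∈ range (n + 1), c m * (3 ^ (n - m) * X p m (zig p m))) +
        c (n + 1) * X p (n + 1) z := by
    rw [Finset.sum_range_succ, Finset.mul_sum]
    congr 1
    · refine Finset.sum_congr rfl ?_
      intro m hm
      rw [Finset.mem_range] at hm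
      have : n + 1 - m = (n - m) + 1 := by omega
      rw [this, pow_succ]
      ring
    · simp [hz]
  have e2 : ∑ l ∈ range (p + 1), 2 * b l * X p (n + 1) l = 2 * b z * X p (n + 1) z +
      3 * ∑ l ∈ (range (p + 1)).erase z, 2 * b l * X p n l := by
    rw [sum_split p z hzp, Finset.mul_sum]
    congr 1
    refine Finset.sum_congr rfl ?_
    intro l hl
    rw [X_other p n l (Finset.ne_of_mem_erase hl)]
    ring
  unfold EE at hE
  rw [e1, e2] at hE
  have hdv : (3 : ℤ) ∣ (c (n + 1) + A + 2 * b z) * X p (n + 1) z := by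
    refine ⟨-(∑ m ∈ range (n + 1), c m * (3 ^ (n - m) * X p m (zig p m)) + cH * 3 ^ n +
      ∑ l ∈ (range (p + 1)).erase z, 2 * b l * X p n l), ?_⟩
    rw [← hz] at hE
    rw [pow_succ] at hE
    linear_combination hE
  have hp3 : Prime (3 : ℤ) := Int.prime_three
  have hdv2 : (3 : ℤ) ∣ c (n + 1) + A + 2 * b z := by
    rcases hp3.dvd_or_dvd hdv with h | h
    · exact h
    · exfalso; omega
  obtain ⟨f, hf⟩ := hdv2
  refine ⟨f, by linarith, ?_, ?_⟩
  · unfold EE
    rw [sum_update2 p z hzp]
    have hs : X p (n + 1) z = X p n (zig p n) + 2 * X p n z := by rw [hz]; exact X_self p n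
    rw [← hz, pow_succ, hs] at hE
    have h2 : (3 : ℤ) ≠ 0 := by norm_num
    apply mul_left_cancel₀ h2
    linear_combination hE - (X p n (zig p n) + 2 * X p n z) * hf
  · unfold QQ at hQ ⊢
    have e3 := sum_update2 p z hzp b f (fun _ => 1)
    have e4 := sum_split p z hzp (fun l => 2 * b l)
    simp only [mul_one] at e3
    rw [e3]
    rw [Finset.sum_range_succ, e4] at hQ
    linear_combination hQ - hf

/-- The monotone descent. -/
lemma descent_pos (p : ℕ) (hp : 1 ≤ p) (c g h : ℕ → ℤ) (cH : ℤ) (hc : ∀ m, c m = g m + h m)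
    (hg : ∀ m, |g m| ≤ 2) (hh0 : ∀ m, 0 ≤ h m) (hhz : ∀ m, zig p m ≠ 0 → h m = 0) :
    ∀ (n : ℕ) (A : ℤ) (b : ℕ → ℤ), EE p c cH n A b → QQ p c cH n A b → A = b (zig p (n + 1)) →
      (∀ l, l < p → b (l + 1) ≤ b l) →
      ∃ b' : ℕ → ℤ, (∀ l, l < p → b' (l + 1) ≤ b' l) ∧
        cH + ∑ l ∈ range p, 2 * b' (l + 1) = 0 ∧ c 0 + b' 1 + 2 * b' 0 = 0 := by
  intro n
  induction n with
  | zero =>
    intro A b hE hQ hA hb
    refine ⟨b, hb, ?_, ?_⟩
    · unfold EE at hE
      rw [Finset.sum_range_succ' (fun l => 2 * b l * X p 0 l) p] at hE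
      simp [X, zig_zero] at hE
      linarith
    · unfold EE at hE
      unfold QQ at hQ
      rw [Finset.sum_range_succ' (fun l => 2 * b l * X p 0 l) p] at hE
      rw [Finset.sum_range_succ' (fun l => 2 * b l) p] at hQ
      simp [X, zig_zero] at hE hQ
      rw [zero_add, zig_one p hp] at hA
      linarith
  | succ n ih =>
    intro A b hE hQ hA hb
    obtain ⟨f, hf, hE', hQ'⟩ := step_down p hp c cH n A b hE hQ
    set z := zig p (n + 1) with hz
    have hzp : z ≤ p := zig_le p (n + 1)
    have hz2p : zig p (n + 1 + 1) ≤ p := zig_le p (n + 1 + 1)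
    refine ih f (Function.update b z f) hE' hQ' (by rw [Function.update_self]) ?_
    intro l hl
    have hgz := abs_le.mp (hg (n + 1))
    have hst := zig_step p (n + 1) hp
    rw [← hz] at hst
    rw [hA, hc (n + 1)] at hf
    by_cases h1 : l + 1 = z
    · rw [h1, Function.update_self, Function.update_of_ne (by omega)]
      have hh : h (n + 1) = 0 := hhz (n + 1) (by rw [← hz]; omega)
      rcases hst with h2 | h2
      · rw [h2] at hf
        have h3 := hb z (by omega)
        have h4 := hb l hl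
        rw [h1] at h4
        omega
      · have h3 : zig p (n + 1 + 1) = l := by omega
        rw [h3] at hf
        have h4 := hb l hl
        rw [h1] at h4
        omega
    · by_cases h5 : l = z
      · rw [h5, Function.update_self, Function.update_of_ne (by omega)]
        have hh := hh0 (n + 1)
        rcases hst with h2 | h2
        · rw [h2] at hf
          have h3 := hb z (by omega)
          omega
        · have h6 := hb (zig p (n + 1 + 1)) (by omega)
          rw [← h2] at h6
          have h7 := hb z (by omega)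
          omega
      · rw [Function.update_of_ne h5, Function.update_of_ne h1]
        exact hb l hl

/-- The trivial descent. -/
lemma descent_zero (p : ℕ) (hp : 1 ≤ p) (c : ℕ → ℤ) (cH : ℤ) (hc : ∀ m, |c m| ≤ 2) :
    ∀ n : ℕ, EE p c cH n 0 (fun _ => 0) → QQ p c cH n 0 (fun _ => 0) →
      (∀ m, m ≤ n → c m = 0) ∧ cH = 0 := by
  intro n
  induction n with
  | zero =>
    intro hE hQ
    unfold EE at hE
    unfold QQ at hQ
    simp [X, zig_zero] at hE hQ
    refine ⟨?_, hE⟩
    intro m hm
    have : m = 0 := by omega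
    rw [this]
    linarith
  | succ n ih =>
    intro hE hQ
    obtain ⟨f, hf, hE', hQ'⟩ := step_down p hp c cH n 0 (fun _ => 0) hE hQ
    have h1 := abs_le.mp (hc (n + 1))
    simp only [add_zero, mul_zero] at hf
    have hf0 : f = 0 := by omega
    have hc0 : c (n + 1) = 0 := by omega
    have hup : Function.update (fun _ => (0 : ℤ)) (zig p (n + 1)) f = fun _ => 0 := by
      funext l
      by_cases hl : l = zig p (n + 1)
      · rw [hl, Function.update_self, hf0]
      · rw [Function.update_of_ne hl]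
    rw [hup, hf0] at hE' hQ'
    obtain ⟨h2, h3⟩ := ih hE' hQ'
    refine ⟨?_, h3⟩
    intro m hm
    rcases Nat.lt_or_ge m (n + 1) with h | h
    · exact h2 m (by omega)
    · have : m = n + 1 := by omega
      rw [this]
      exact hc0

end Pool.Agent.H521R3.TZ
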