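import Mathlib
import Pool.Agent.H521R3.TZ.Core

/-!
# Reflections of the hub and absence of relations (ternary)
-/

set_option autoImplicit false

namespace Pool.Agent.H521R3.TZ

open Finset
open Pool.Agent.H219R2.DS (zig zig_le zig_zero zig_mul zig_one zig_step zig_ne sum_split sum_update)

/-- The elements of the chain, scaled by `3 ^ T`. -/
def wv (p T m : ℕ) : ℤ := 3 ^ (T - m) * X p m (zig p m)

/-- The reflections: `x 0` is the hub, `x (j+1) = 3 x j - 2 y j` where the `y j` are the chain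
elements at the positions `2 p (M - j)`. -/
def xv (p M : ℕ) : ℕ → ℤ
  | 0 => 3 ^ (2 * p * M)
  | (j + 1) => 3 * xv p M j - 2 * wv p (2 * p * M) (2 * p * (M - j))

lemma tail_id (γ C x Y : ℕ → ℤ) (t : ℕ) (hC : ∀ j, j < t → C j = γ j + 3 * C (j + 1))
    (hx : ∀ j, j < t → x (j + 1) = 3 * x j - 2 * Y j) :
    ∑ j ∈ range t, γ j * x j + C t * x t =
      C 0 * x 0 + ∑ j ∈ range t, (-(2 * C (j + 1))) * Y j := by
  have key : ∀ k, k ≤ t →
      ∑ j ∈ range k, γ j * x j + C k * x k =
        C 0 * x 0 + ∑ j ∈ range k, (-(2 * C (j + 1))) * Y j := by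
    intro k
    induction k with
    | zero => intro _; simp
    | succ k ih =>
      intro hk
      have h1 := ih (by omega)
      have h2 := hC k (by omega)
      have h3 := hx k (by omega)
      rw [Finset.sum_range_succ, Finset.sum_range_succ, h3]
      rw [h2] at h1
      linear_combination h1
  exact key t le_rfl

lemma exists_C (γ : ℕ → ℤ) (G : ℤ) (t : ℕ) :
    ∃ C : ℕ → ℤ, C t = G ∧ ∀ j, j < t → C j = γ j + 3 * C (j + 1) := by
  let D : ℕ → ℤ := fun n => Nat.rec G (fun i v => γ (t - 1 - i) + 3 * v) n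
  refine ⟨fun j => D (t - j), ?_, ?_⟩
  · simp [D]
  · intro j hj
    have e : t - j = (t - (j + 1)) + 1 := by omega
    show D (t - j) = γ j + 3 * D (t - (j + 1))
    rw [e]
    show γ (t - 1 - (t - (j + 1))) + 3 * D (t - (j + 1)) = _
    have e3 : t - 1 - (t - (j + 1)) = j := by omega
    rw [e3]

/-- The hub injections. -/
def inj (p M t : ℕ) (C : ℕ → ℤ) (m : ℕ) : ℤ :=
  ∑ j ∈ range t, if 2 * p * (M - j) = m then -(2 * C (j + 1)) else 0

lemma inj_sum (p M t : ℕ) (C : ℕ → ℤ) (F : ℕ → ℤ) :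
    ∑ m ∈ range (2 * p * M + 1), inj p M t C m * F m =
      ∑ j ∈ range t, (-(2 * C (j + 1))) * F (2 * p * (M - j)) := by
  unfold inj
  simp only [Finset.sum_mul]
  rw [Finset.sum_comm]
  refine Finset.sum_congr rfl ?_
  intro j _
  have hmem : 2 * p * (M - j) ∈ range (2 * p * M + 1) := by
    rw [Finset.mem_range]
    have : 2 * p * (M - j) ≤ 2 * p * M := Nat.mul_le_mul_left _ (Nat.sub_le _ _)
    omega
  rw [Finset.sum_eq_single_of_mem _ hmem]
  · rw [if_pos rfl]
  · intro m _ hm
    rw [if_neg (fun h => hm h.symm), zero_mul]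

lemma inj_zig (p M t : ℕ) (C : ℕ → ℤ) (m : ℕ) (hm : zig p m ≠ 0) : inj p M t C m = 0 := by
  unfold inj
  refine Finset.sum_eq_zero ?_
  intro j _
  rw [if_neg]
  intro h
  apply hm
  rw [← h]
  exact zig_mul p (M - j)

lemma inj_zero (p M t : ℕ) (hp : 1 ≤ p) (ht : t ≤ M) (C : ℕ → ℤ) : inj p M t C 0 = 0 := by
  unfold inj
  refine Finset.sum_eq_zero ?_
  intro j hj
  rw [Finset.mem_range] at hj
  rw [if_neg]
  have : 0 < 2 * p * (M - j) := Nat.mul_pos (by omega) (by omega)
  omega

lemma inj_nonneg (p M t : ℕ) (C : ℕ → ℤ) (hC : ∀ j, j < t → C (j + 1) ≤ 0) (m : ℕ) :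
    0 ≤ inj p M t C m := by
  unfold inj
  refine Finset.sum_nonneg ?_
  intro j hj
  rw [Finset.mem_range] at hj
  have := hC j hj
  split_ifs
  · linarith
  · exact le_rfl

/-- The two equations at the top stage. -/
lemma top_eqs (p M t : ℕ) (g γ C : ℕ → ℤ) (hC : ∀ j, j < t → C j = γ j + 3 * C (j + 1))
    (hval : ∑ m ∈ range (2 * p * M + 1), g m * wv p (2 * p * M) m + ∑ j ∈ range t, γ j * xv p M j +
      C t * xv p M t = 0)
    (hcnt : ∑ m ∈ range (2 * p * M + 1), g m + ∑ j ∈ range t, γ j + C t = 0) :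
    EE p (fun m => g m + inj p M t C m) (C 0) (2 * p * M) 0 (fun _ => 0) ∧
    QQ p (fun m => g m + inj p M t C m) (C 0) (2 * p * M) 0 (fun _ => 0) := by
  constructor
  · have h1 := tail_id γ C (xv p M) (fun j => wv p (2 * p * M) (2 * p * (M - j))) t hC
      (fun j _ => rfl)
    have h2 := inj_sum p M t C (wv p (2 * p * M))
    unfold EE
    simp only [zero_mul, mul_zero, Finset.sum_const_zero, add_zero]
    have h3 : ∑ m ∈ range (2 * p * M + 1), (g m + inj p M t C m) *
        (3 ^ (2 * p * M - m) * X p m (zig p m)) =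
        ∑ m ∈ range (2 * p * M + 1), g m * wv p (2 * p * M) m +
        ∑ m ∈ range (2 * p * M + 1), inj p M t C m * wv p (2 * p * M) m := by
      rw [← Finset.sum_add_distrib]
      refine Finset.sum_congr rfl ?_
      intro m _
      unfold wv
      ring
    rw [h3, h2]
    have h4 : xv p M 0 = 3 ^ (2 * p * M) := rfl
    rw [h4] at h1
    linarith
  · have h1 := tail_id γ C (fun _ => 1) (fun _ => 1) t hC (fun j _ => by norm_num)
    have h2 := inj_sum p M t C (fun _ => 1)
    simp only [mul_one] at h1 h2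
    unfold QQ
    simp only [mul_zero, Finset.sum_const_zero, add_zero]
    rw [Finset.sum_add_distrib, h2]
    linarith

/-- The main contradiction. -/
lemma no_pos (p M t : ℕ) (hp : 1 ≤ p) (ht1 : 1 ≤ t) (ht : t ≤ M) (g γ C : ℕ → ℤ)
    (hg : ∀ m, |g m| ≤ 2) (hγ : ∀ j, |γ j| ≤ 2)
    (hC : ∀ j, j < t → C j = γ j + 3 * C (j + 1))
    (hval : ∑ m ∈ range (2 * p * M + 1), g m * wv p (2 * p * M) m + ∑ j ∈ range t, γ j * xv p M j +
      C t * xv p M t = 0)
    (hcnt : ∑ m ∈ range (2 * p * M + 1), g m + ∑ j ∈ range t, γ j + C t = 0)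
    (hpos : C 1 ≤ -1) : False := by
  obtain ⟨hE, hQ⟩ := top_eqs p M t g γ C hC hval hcnt
  have hneg : ∀ j, j < t → C (j + 1) ≤ 0 := by
    intro j
    induction j with
    | zero => intro _; simp only [zero_add]; omega
    | succ j ih =>
      intro hj
      have h1 := ih (by omega)
      have h2 := hC (j + 1) hj
      have h3 := abs_le.mp (hγ (j + 1))
      omega
  obtain ⟨b, hb, h1, h2⟩ := descent_pos p hp _ g (inj p M t C) (C 0) (fun m => rfl) hg
    (inj_nonneg p M t C hneg)
    (fun m hm => inj_zig p M t C m hm) (2 * p * M) 0 (fun _ => 0)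
    hE hQ rfl (fun l _ => le_rfl)
  have h3 := hC 0 (by omega)
  have h4 := abs_le.mp (hγ 0)
  have h5 := abs_le.mp (hg 0)
  rw [inj_zero p M t hp ht C] at h2
  simp only [add_zero, zero_add] at h2 h3
  have h6 : 1 ≤ ∑ l ∈ range p, 2 * b (l + 1) := by linarith
  have h7 : 1 ≤ b 1 := by
    by_contra hcon
    push Not at hcon
    have h8 : ∀ l, l < p → b (l + 1) ≤ b 1 := by
      intro l
      induction l with
      | zero => intro _; exact le_rfl
      | succ l ih =>
        intro hl
        exact le_trans (hb (l + 1) hl) (ih (by omega))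
    have h9 : ∑ l ∈ range p, 2 * b (l + 1) ≤ 0 := by
      refine Finset.sum_nonpos ?_
      intro l hl
      have := h8 l (by simpa using hl)
      omega
    omega
  have h10 := hb 0 (by omega)
  simp only [zero_add] at h10
  omega

/-- There are no relations. -/
lemma no_relation (p M t : ℕ) (hp : 1 ≤ p) (ht1 : 1 ≤ t) (ht : t ≤ M) (g γ : ℕ → ℤ)
    (hg : ∀ m, |g m| ≤ 2) (hγ : ∀ j, |γ j| ≤ 2)
    (hval : ∑ m ∈ range (2 * p * M + 1), g m * (xv p M t - wv p (2 * p * M) m) +
      ∑ j ∈ range t, γ j * (xv p M t - xv p M j) = 0) :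
    (∀ m, m ≤ 2 * p * M → g m = 0) ∧ ∀ j, j < t → γ j = 0 := by
  obtain ⟨C, hCt, hC⟩ := exists_C γ
    (-(∑ m ∈ range (2 * p * M + 1), g m + ∑ j ∈ range t, γ j)) t
  have hcnt : ∑ m ∈ range (2 * p * M + 1), g m + ∑ j ∈ range t, γ j + C t = 0 := by
    rw [hCt]; ring
  have hval' : ∑ m ∈ range (2 * p * M + 1), g m * wv p (2 * p * M) m +
      ∑ j ∈ range t, γ j * xv p M j + C t * xv p M t = 0 := by
    simp only [mul_sub, Finset.sum_sub_distrib, ← Finset.sum_mul] at hval
    rw [hCt]
    linear_combination -hval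
  rcases lt_trichotomy (C 1) 0 with h | h | h
  · exact (no_pos p M t hp ht1 ht g γ C hg hγ hC hval' hcnt (by omega)).elim
  · have hz : ∀ j, j < t → C (j + 1) = 0 ∧ (1 ≤ j → γ j = 0) := by
      intro j
      induction j with
      | zero => intro _; exact ⟨h, fun h => absurd h (by omega)⟩
      | succ j ih =>
        intro hj
        have h1 := (ih (by omega)).1
        have h2 := hC (j + 1) hj
        have h3 := abs_le.mp (hγ (j + 1))
        constructor
        · omega
        · intro _; omega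
    have hinj : ∀ m, inj p M t C m = 0 := by
      intro m
      unfold inj
      refine Finset.sum_eq_zero ?_
      intro j hj
      rw [Finset.mem_range] at hj
      rw [(hz j hj).1]
      simp
    obtain ⟨hE, hQ⟩ := top_eqs p M t g γ C hC hval' hcnt
    simp only [hinj, add_zero] at hE hQ
    obtain ⟨h1, h2⟩ := descent_zero p hp g (C 0) hg (2 * p * M) hE hQ
    refine ⟨h1, ?_⟩
    intro j hj
    rcases Nat.eq_zero_or_pos j with h0 | h0
    · have h3 := hC 0 (by omega)
      rw [h0]
      simp only [zero_add] at h3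
      omega
    · exact (hz j hj).2 h0
  · exfalso
    refine no_pos p M t hp ht1 ht (fun m => -g m) (fun j => -γ j) (fun j => -C j)
      (fun m => by rw [abs_neg]; exact hg m) (fun j => by rw [abs_neg]; exact hγ j) ?_ ?_ ?_
      (by show -C 1 ≤ -1; omega)
    · intro j hj
      have := hC j hj
      show -C j = -γ j + 3 * -C (j + 1)
      linarith
    · simp only [neg_mul, Finset.sum_neg_distrib]
      linarith
    · simp only [Finset.sum_neg_distrib]
      linarith

end Pool.Agent.H521R3.TZ
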