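import Mathlib
import Pool.Agent.H521R3.TZ.Tail

/-!
# The ternary family as a finite set of positive integers
-/

set_option autoImplicit false

namespace Pool.Agent.H521R3.TZ

open Finset
open Pool.Agent.H219R2.DS (zig zig_le zig_zero zig_mul zig_one zig_step zig_ne sum_split sum_update)

/-- No nontrivial relation with coefficients in `{-2, ..., 2}`. -/
def NoRel (B : Finset ℕ) : Prop :=
  ∀ c : ℕ → ℤ, (∀ x ∈ B, |c x| ≤ 2) → ∑ x ∈ B, c x * (x : ℤ) = 0 → ∀ x ∈ B, c x = 0

/-- From a relation-free family to a finite set. -/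
lemma to_finset (n : ℕ) (a : ℕ → ℤ) (B : ℤ) (hpos : ∀ i, i < n → 0 < a i)
    (hle : ∀ i, i < n → a i ≤ B)
    (hrf : ∀ g : ℕ → ℤ, (∀ i, |g i| ≤ 2) → ∑ i ∈ range n, g i * a i = 0 → ∀ i, i < n → g i = 0) :
    ∃ A : Finset ℕ, A.card = n ∧ (∀ x ∈ A, 0 < x ∧ (x : ℤ) ≤ B) ∧ NoRel A := by
  classical
  have he : ∀ i, i < n → (((a i).toNat : ℕ) : ℤ) = a i := fun i hi =>
    Int.toNat_of_nonneg (hpos i hi).le
  have hinj : Set.InjOn (fun i => (a i).toNat) (range n : Set ℕ) := by
    intro i hi j hj hij
    simp only [Finset.coe_range, Set.mem_Iio] at hi hj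
    by_contra hne
    have hij' : a i = a j := by
      rw [← he i hi, ← he j hj]
      exact_mod_cast hij
    have := hrf (fun k => if k = i then 1 else if k = j then -1 else 0) (by
      intro k
      split_ifs <;> simp) (by
      have h1 : ∀ k ∈ range n, (if k = i then (1:ℤ) else if k = j then -1 else 0) * a k =
          (if k = i then a k else 0) - (if k = j then a k else 0) := by
        intro k _
        by_cases h1 : k = i
        · have h2 : k ≠ j := fun h => hne (h1.symm.trans h)
          rw [if_pos h1, if_pos h1, if_neg h2]; ring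
        · by_cases h2 : k = j
          · rw [if_neg h1, if_pos h2, if_neg h1, if_pos h2]; ring
          · rw [if_neg h1, if_neg h2, if_neg h1, if_neg h2]; ring
      rw [Finset.sum_congr rfl h1, Finset.sum_sub_distrib, Finset.sum_ite_eq', Finset.sum_ite_eq',
        if_pos (Finset.mem_range.mpr hi), if_pos (Finset.mem_range.mpr hj), hij']
      ring) i hi
    simp at this
  refine ⟨(range n).image (fun i => (a i).toNat), ?_, ?_, ?_⟩
  · rw [Finset.card_image_of_injOn hinj, Finset.card_range]
  · intro x hx
    rw [Finset.mem_image] at hx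
    obtain ⟨i, hi, rfl⟩ := hx
    rw [Finset.mem_range] at hi
    have h1 := hpos i hi
    have h2 := hle i hi
    constructor
    · omega
    · rw [he i hi]; exact h2
  · intro c hc hsum
    rw [Finset.sum_image hinj] at hsum
    have hm : ∀ i ∈ range n, (a i).toNat ∈ (range n).image (fun i => (a i).toNat) := fun i hi =>
      Finset.mem_image_of_mem _ hi
    have h2 := hrf (fun i => if i < n then c ((a i).toNat) else 0) (by
      intro i
      by_cases h : i < n
      · simp only [if_pos h]
        exact hc _ (hm i (Finset.mem_range.mpr h))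
      · simp only [if_neg h]
        norm_num) (by
      rw [← hsum]
      refine Finset.sum_congr rfl ?_
      intro i hi
      have hi' := Finset.mem_range.mp hi
      rw [if_pos hi', he i hi'])
    intro x hx
    rw [Finset.mem_image] at hx
    obtain ⟨i, hi, rfl⟩ := hx
    have hi' := Finset.mem_range.mp hi
    have h3 := h2 i hi'
    rwa [if_pos hi'] at h3

/-! ### Bounds -/

lemma X_nonneg (p n l : ℕ) : 0 ≤ X p n l := by
  induction n generalizing l with
  | zero => simp only [X]; split_ifs <;> norm_num
  | succ n ih =>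
    by_cases h : l = zig p (n + 1)
    · rw [h, X_self]
      have := ih (zig p n)
      have := ih (zig p (n + 1))
      omega
    · rw [X_other p n l h]
      have := ih l
      omega

lemma X_le (p n l : ℕ) : X p n l ≤ 3 ^ n := by
  induction n generalizing l with
  | zero => simp only [X]; split_ifs <;> norm_num
  | succ n ih =>
    rw [pow_succ]
    by_cases h : l = zig p (n + 1)
    · rw [h, X_self]
      have := ih (zig p n)
      have := ih (zig p (n + 1))
      omega
    · rw [X_other p n l h]
      have := ih l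
      omega

lemma X_lt (p n : ℕ) : X p n (zig p n) < 3 ^ n := by
  induction n with
  | zero => rw [zig_zero]; simp [X]
  | succ n ih =>
    rw [pow_succ, X_self]
    have := X_le p n (zig p (n + 1))
    omega

lemma wv_nonneg (p T m : ℕ) : 0 ≤ wv p T m := by
  unfold wv
  exact mul_nonneg (by positivity) (X_nonneg _ _ _)

lemma wv_lt (p T m : ℕ) (hm : m ≤ T) : wv p T m < 3 ^ T := by
  unfold wv
  have h1 : (3 : ℤ) ^ T = 3 ^ (T - m) * 3 ^ m := by rw [← pow_add]; congr 1; omega
  rw [h1]
  exact mul_lt_mul_of_pos_left (X_lt p m) (by positivity)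

lemma xv_props (p M : ℕ) (j : ℕ) :
    3 ^ (2 * p * M) ≤ xv p M j ∧ xv p M j < xv p M (j + 1) := by
  induction j with
  | zero =>
    have h1 : xv p M 0 = 3 ^ (2 * p * M) := rfl
    have h2 : xv p M 1 = 3 * xv p M 0 - 2 * wv p (2 * p * M) (2 * p * (M - 0)) := rfl
    have h3 := wv_lt p (2 * p * M) (2 * p * (M - 0)) (by simp)
    refine ⟨h1.ge, ?_⟩
    rw [zero_add, h2, h1]
    linarith
  | succ j ih =>
    have h2 : xv p M (j + 1 + 1) =
        3 * xv p M (j + 1) - 2 * wv p (2 * p * M) (2 * p * (M - (j + 1))) := rfl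
    have h3 := wv_lt p (2 * p * M) (2 * p * (M - (j + 1)))
      (Nat.mul_le_mul_left _ (Nat.sub_le _ _))
    refine ⟨by linarith [ih.1, ih.2], ?_⟩
    rw [h2]
    linarith [ih.1, ih.2]

lemma xv_lt (p M i j : ℕ) (h : i < j) : xv p M i < xv p M j := by
  induction j, h using Nat.le_induction with
  | base => exact (xv_props p M i).2
  | succ j _ ih => exact lt_trans ih (xv_props p M j).2

/-- The upper bound for the top. -/
lemma xv_bound (p M t : ℕ) (δ : ℝ)
    (h : ∀ j, j < t → (1 - δ) * 3 ^ (2 * p * M) ≤ (wv p (2 * p * M) (2 * p * (M - j)) : ℝ)) :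
    (xv p M t : ℝ) ≤ (1 + δ * (3 ^ t - 1)) * 3 ^ (2 * p * M) := by
  induction t with
  | zero =>
    have h1 : xv p M 0 = 3 ^ (2 * p * M) := rfl
    rw [h1]
    push_cast
    simp
  | succ t ih =>
    have h1 := ih (fun j hj => h j (by omega))
    have h2 := h t (by omega)
    have h3 : xv p M (t + 1) = 3 * xv p M t - 2 * wv p (2 * p * M) (2 * p * (M - t)) := rfl
    rw [h3]
    push_cast
    rw [pow_succ]
    nlinarith

/-- The set. -/
lemma family (p M t : ℕ) (hp : 1 ≤ p) (ht1 : 1 ≤ t) (ht : t ≤ M) :
    ∃ A : Finset ℕ, A.card = 2 * p * M + 1 + t ∧ (∀ x ∈ A, 0 < x ∧ (x : ℤ) ≤ xv p M t) ∧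
      NoRel A := by
  refine to_finset (2 * p * M + 1 + t)
    (fun i => if i < 2 * p * M + 1 then xv p M t - wv p (2 * p * M) i
      else xv p M t - xv p M (i - (2 * p * M + 1))) (xv p M t) ?_ ?_ ?_
  · intro i hi
    split_ifs with h
    · have h1 := wv_lt p (2 * p * M) i (by omega)
      have h2 := (xv_props p M t).1
      linarith
    · have := xv_lt p M (i - (2 * p * M + 1)) t (by omega)
      linarith
  · intro i hi
    split_ifs with h
    · have h1 := wv_nonneg p (2 * p * M) i
      linarith
    · have h1 := (xv_props p M (i - (2 * p * M + 1))).1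
      have h2 : (0 : ℤ) ≤ 3 ^ (2 * p * M) := by positivity
      linarith
  · intro g hg hsum i hi
    rw [Finset.sum_range_add] at hsum
    have h1 : ∑ m ∈ range (2 * p * M + 1), g m * (if m < 2 * p * M + 1 then
        xv p M t - wv p (2 * p * M) m else xv p M t - xv p M (m - (2 * p * M + 1))) =
        ∑ m ∈ range (2 * p * M + 1), g m * (xv p M t - wv p (2 * p * M) m) := by
      refine Finset.sum_congr rfl ?_
      intro m hm
      rw [Finset.mem_range] at hm
      rw [if_pos hm]
    have h2 : ∑ j ∈ range t, g (2 * p * M + 1 + j) * (if 2 * p * M + 1 + j < 2 * p * M + 1 then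
        xv p M t - wv p (2 * p * M) (2 * p * M + 1 + j) else
        xv p M t - xv p M (2 * p * M + 1 + j - (2 * p * M + 1))) =
        ∑ j ∈ range t, g (2 * p * M + 1 + j) * (xv p M t - xv p M j) := by
      refine Finset.sum_congr rfl ?_
      intro j _
      rw [if_neg (by omega)]
      congr 3
      omega
    rw [h1, h2] at hsum
    obtain ⟨h3, h4⟩ := no_relation p M t hp ht1 ht g (fun j => g (2 * p * M + 1 + j)) hg
      (fun j => hg _) hsum
    rcases Nat.lt_or_ge i (2 * p * M + 1) with h | h
    · exact h3 i (by omega)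
    · have h5 := h4 (i - (2 * p * M + 1)) (by omega)
      have h6 : 2 * p * M + 1 + (i - (2 * p * M + 1)) = i := by omega
      rw [h6] at h5
      exact h5

end Pool.Agent.H521R3.TZ
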