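import Mathlib
import Pool.Agent.H521R3.TZ.Fam

/-!
# Convergence of the ternary chain: energy and Nash type inequality
-/

set_option autoImplicit false

namespace Pool.Agent.H521R3.TZ

open Finset
open Pool.Agent.H219R2.DS (zig zig_le zig_zero zig_mul zig_one zig_step zig_ne sum_split sum_update
  zig_up zig_down)

/-- Values of the states. -/
noncomputable def R (p n l : ℕ) : ℝ := (X p n l : ℝ) / 3 ^ n

lemma R_self (p n : ℕ) :
    R p (n + 1) (zig p (n + 1)) = (R p n (zig p n) + 2 * R p n (zig p (n + 1))) / 3 := by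
  unfold R
  rw [X_self, pow_succ]
  push_cast
  field_simp

lemma R_other (p n l : ℕ) (hl : l ≠ zig p (n + 1)) : R p (n + 1) l = R p n l := by
  unfold R
  rw [X_other p n l hl, pow_succ]
  push_cast
  field_simp

lemma R_zero (p l : ℕ) : R p 0 l = if l = 0 then 0 else 1 := by
  unfold R
  simp only [X]
  split_ifs <;> simp

lemma R_le_one (p n l : ℕ) : R p n l ≤ 1 := by
  unfold R
  rw [div_le_one (by positivity)]
  exact_mod_cast X_le p n l

lemma R_nonneg (p n l : ℕ) : 0 ≤ R p n l := by
  unfold R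
  have : (0 : ℝ) ≤ X p n l := by exact_mod_cast X_nonneg p n l
  positivity

/-- The states are nondecreasing in the label. -/
lemma R_mono (p : ℕ) (hp : 1 ≤ p) (n : ℕ) : ∀ l, l < p → R p n l ≤ R p n (l + 1) := by
  induction n with
  | zero =>
    intro l _
    rw [R_zero, R_zero]
    split_ifs <;> norm_num
    omega
  | succ n ih =>
    intro l hl
    have hst := zig_step p n hp
    have hzp := zig_le p (n + 1)
    have hz0 := zig_le p n
    by_cases h1 : l + 1 = zig p (n + 1)
    · rw [h1, R_self, R_other p n l (by omega)]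
      have h2 := ih l hl
      rw [h1] at h2
      rcases hst with h | h
      · have h3 : zig p n = l := by omega
        rw [h3]
        linarith
      · have h3 := ih (zig p (n + 1)) (by omega)
        rw [h]
        linarith
    · by_cases h2 : l = zig p (n + 1)
      · rw [h2] at hl ⊢
        rw [R_self, R_other p n _ (by omega)]
        have h3 := ih (zig p (n + 1)) hl
        rcases hst with h | h
        · have h4 := ih (zig p n) (by omega)
          rw [← h] at h4
          linarith
        · rw [h]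
          linarith
      · rw [R_other p n l h2, R_other p n (l + 1) h1]
        exact ih l hl

lemma R_mono' (p : ℕ) (hp : 1 ≤ p) (n l : ℕ) (hl : l ≤ p) : R p n 0 ≤ R p n l := by
  induction l with
  | zero => exact le_rfl
  | succ l ih => exact le_trans (ih (by omega)) (R_mono p hp n l (by omega))

lemma R_mono'' (p : ℕ) (hp : 1 ≤ p) (n l : ℕ) (hl : l ≤ p) : R p n l ≤ R p n p := by
  obtain ⟨s, hs⟩ := Nat.exists_eq_add_of_le hl
  have key : ∀ s l, l + s ≤ p → R p n l ≤ R p n (l + s) := by
    intro s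
    induction s with
    | zero => intro l _; exact le_rfl
    | succ s ih =>
      intro l hl
      exact le_trans (ih l (by omega)) (R_mono p hp n (l + s) (by omega))
  have := key s l (by omega)
  rwa [← hs] at this

lemma R_zero_mono (p : ℕ) (hp : 1 ≤ p) (n : ℕ) : R p n 0 ≤ R p (n + 1) 0 := by
  by_cases h : zig p (n + 1) = 0
  · have h1 := R_self p n
    rw [h] at h1
    rw [h1]
    have h2 := R_mono' p hp n (zig p n) (zig_le p n)
    linarith
  · rw [R_other p n 0 (Ne.symm h)]

lemma R_top_anti (p : ℕ) (hp : 1 ≤ p) (n : ℕ) : R p (n + 1) p ≤ R p n p := by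
  by_cases h : zig p (n + 1) = p
  · have h1 := R_self p n
    rw [h] at h1
    rw [h1]
    have h2 := R_mono'' p hp n (zig p n) (zig_le p n)
    linarith
  · rw [R_other p n p (Ne.symm h)]

lemma R_zero_mono' (p : ℕ) (hp : 1 ≤ p) (m n : ℕ) (h : m ≤ n) : R p m 0 ≤ R p n 0 := by
  induction n, h using Nat.le_induction with
  | base => exact le_rfl
  | succ n _ ih => exact le_trans ih (R_zero_mono p hp n)

lemma R_top_anti' (p : ℕ) (hp : 1 ≤ p) (m n : ℕ) (h : m ≤ n) : R p n p ≤ R p m p := by
  induction n, h using Nat.le_induction with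
  | base => exact le_rfl
  | succ n _ ih => exact le_trans (R_top_anti p hp n) ih

/-- Functionals of the state: `Fn φ n = φ (token) + 2 ∑ φ (states)`. -/
noncomputable def Fn (p : ℕ) (φ : ℝ → ℝ) (n : ℕ) : ℝ :=
  φ (R p n (zig p n)) + 2 * ∑ l ∈ range (p + 1), φ (R p n l)

lemma Fn_step (p : ℕ) (φ : ℝ → ℝ) (n : ℕ) :
    Fn p φ n - Fn p φ (n + 1) = φ (R p n (zig p n)) + 2 * φ (R p n (zig p (n + 1))) -
      3 * φ ((R p n (zig p n) + 2 * R p n (zig p (n + 1))) / 3) := by
  unfold Fn
  have hz : zig p (n + 1) ∈ range (p + 1) := by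
    have := zig_le p (n + 1)
    rw [Finset.mem_range]; omega
  have h1 : ∑ l ∈ (range (p + 1)).erase (zig p (n + 1)), φ (R p (n + 1) l) =
      ∑ l ∈ (range (p + 1)).erase (zig p (n + 1)), φ (R p n l) := by
    refine Finset.sum_congr rfl ?_
    intro l hl
    rw [R_other p n l (Finset.ne_of_mem_erase hl)]
  rw [← Finset.add_sum_erase _ (fun l => φ (R p n l)) hz,
    ← Finset.add_sum_erase _ (fun l => φ (R p (n + 1) l)) hz, h1, R_self]
  ring

lemma Fn_zero (p : ℕ) (φ : ℝ → ℝ) : Fn p φ 0 = 3 * φ 0 + 2 * p * φ 1 := by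
  unfold Fn
  rw [zig_zero, Finset.sum_range_succ']
  simp only [R_zero]
  simp
  ring

/-- The conserved quantity. -/
lemma R_sum (p : ℕ) (n : ℕ) : Fn p (fun x => x) n = 2 * p := by
  induction n with
  | zero => rw [Fn_zero]; ring
  | succ n ih =>
    have h := Fn_step p (fun x => x) n
    rw [ih] at h
    linarith

/-- The limit. -/
noncomputable def cc (p : ℕ) : ℝ := 2 * p / (2 * p + 3)

lemma cc_mul (p : ℕ) : (2 * (p : ℝ) + 3) * cc p = 2 * p := by
  unfold cc
  field_simp

lemma cc_nonneg (p : ℕ) : 0 ≤ cc p := by unfold cc; positivity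

lemma cc_le_one (p : ℕ) : cc p ≤ 1 := by
  unfold cc
  rw [div_le_one (by positivity)]
  linarith

lemma cc_ge (p : ℕ) (hp : 1 ≤ p) (n : ℕ) : R p n 0 ≤ cc p := by
  have h := R_sum p n
  unfold Fn at h
  have h1 := R_mono' p hp n (zig p n) (zig_le p n)
  have h2 : ∑ l ∈ range (p + 1), R p n 0 ≤ ∑ l ∈ range (p + 1), R p n l := by
    refine Finset.sum_le_sum ?_
    intro l hl
    rw [Finset.mem_range] at hl
    exact R_mono' p hp n l (by omega)
  rw [Finset.sum_const, Finset.card_range, nsmul_eq_mul] at h2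
  push_cast at h2
  have h3 := cc_mul p
  have h4 : (2 * (p : ℝ) + 3) * R p n 0 ≤ (2 * (p : ℝ) + 3) * cc p := by nlinarith
  exact le_of_mul_le_mul_left h4 (by positivity)

lemma cc_le (p : ℕ) (hp : 1 ≤ p) (n : ℕ) : cc p ≤ R p n p := by
  have h := R_sum p n
  unfold Fn at h
  have h1 := R_mono'' p hp n (zig p n) (zig_le p n)
  have h2 : ∑ l ∈ range (p + 1), R p n l ≤ ∑ l ∈ range (p + 1), R p n p := by
    refine Finset.sum_le_sum ?_
    intro l hl
    rw [Finset.mem_range] at hl
    exact R_mono'' p hp n l (by omega)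
  rw [Finset.sum_const, Finset.card_range, nsmul_eq_mul] at h2
  push_cast at h2
  have h3 := cc_mul p
  have h4 : (2 * (p : ℝ) + 3) * cc p ≤ (2 * (p : ℝ) + 3) * R p n p := by nlinarith
  exact le_of_mul_le_mul_left h4 (by positivity)

/-- The energy. -/
noncomputable def En (p n : ℕ) : ℝ := Fn p (fun x => (x - cc p) ^ 2) n

/-- The `L¹` deviation. -/
noncomputable def Ln (p n : ℕ) : ℝ := Fn p (fun x => |x - cc p|) n

lemma En_step (p n : ℕ) :
    En p n - En p (n + 1) = 2 / 3 * (R p n (zig p (n + 1)) - R p n (zig p n)) ^ 2 := by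
  unfold En
  rw [Fn_step]
  ring

lemma En_anti (p n : ℕ) : En p (n + 1) ≤ En p n := by
  have h := En_step p n
  have : 0 ≤ 2 / 3 * (R p n (zig p (n + 1)) - R p n (zig p n)) ^ 2 := by positivity
  linarith

lemma En_anti' (p m n : ℕ) (h : m ≤ n) : En p n ≤ En p m := by
  induction n, h using Nat.le_induction with
  | base => exact le_rfl
  | succ n _ ih => exact le_trans (En_anti p n) ih

lemma En_nonneg (p n : ℕ) : 0 ≤ En p n := by
  unfold En Fn
  have : 0 ≤ ∑ l ∈ range (p + 1), (R p n l - cc p) ^ 2 :=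
    Finset.sum_nonneg (fun l _ => by positivity)
  have h2 : 0 ≤ (R p n (zig p n) - cc p) ^ 2 := by positivity
  simp only
  linarith

lemma Ln_anti (p n : ℕ) : Ln p (n + 1) ≤ Ln p n := by
  have h := Fn_step p (fun x => |x - cc p|) n
  set w := R p n (zig p n)
  set y := R p n (zig p (n + 1))
  have h1 : |(w + 2 * y) / 3 - cc p| * 3 ≤ |w - cc p| + 2 * |y - cc p| := by
    have e : (w + 2 * y) / 3 - cc p = ((w - cc p) + 2 * (y - cc p)) / 3 := by ring
    rw [e, abs_div, abs_of_pos (by norm_num : (0 : ℝ) < 3)]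
    have h2 := abs_add_le (w - cc p) (2 * (y - cc p))
    rw [abs_mul, abs_of_pos (by norm_num : (0 : ℝ) < 2)] at h2
    linarith
  unfold Ln
  linarith

lemma Ln_le (p n : ℕ) : Ln p n ≤ 6 := by
  induction n with
  | zero =>
    unfold Ln
    rw [Fn_zero]
    have h1 := cc_nonneg p
    have h2 := cc_le_one p
    have h3 := cc_mul p
    rw [zero_sub, abs_neg, abs_of_nonneg h1, abs_of_nonneg (by linarith)]
    nlinarith
  | succ n ih => exact le_trans (Ln_anti p n) ih

/-- The spread. -/
noncomputable def D (p k : ℕ) : ℝ := R p (2 * p * k) p - R p (2 * p * k) 0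

lemma D_nonneg (p : ℕ) (hp : 1 ≤ p) (k : ℕ) : 0 ≤ D p k := by
  unfold D
  have := R_mono' p hp (2 * p * k) p le_rfl
  linarith

lemma D_anti (p : ℕ) (hp : 1 ≤ p) (i k : ℕ) (h : i ≤ k) : D p k ≤ D p i := by
  unfold D
  have h1 := R_top_anti' p hp (2 * p * i) (2 * p * k) (Nat.mul_le_mul_left _ h)
  have h2 := R_zero_mono' p hp (2 * p * i) (2 * p * k) (Nat.mul_le_mul_left _ h)
  linarith

/-- The energy is at most `6 D`. -/
lemma En_le_D (p : ℕ) (hp : 1 ≤ p) (k : ℕ) : En p (2 * p * k) ≤ 6 * D p k := by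
  have hD := D_nonneg p hp k
  have hb : ∀ l, l ≤ p → |R p (2 * p * k) l - cc p| ≤ D p k := by
    intro l hl
    unfold D
    have h1 := R_mono' p hp (2 * p * k) l hl
    have h2 := R_mono'' p hp (2 * p * k) l hl
    have h3 := cc_ge p hp (2 * p * k)
    have h4 := cc_le p hp (2 * p * k)
    rw [abs_le]
    constructor <;> linarith
  have hs : ∀ l, l ≤ p → (R p (2 * p * k) l - cc p) ^ 2 ≤
      D p k * |R p (2 * p * k) l - cc p| := by
    intro l hl
    have h1 := hb l hl
    rw [← sq_abs, sq]
    exact mul_le_mul_of_nonneg_right h1 (abs_nonneg _)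
  have h1 : En p (2 * p * k) ≤ D p k * Ln p (2 * p * k) := by
    unfold En Ln Fn
    have h2 := hs (zig p (2 * p * k)) (zig_le p _)
    have h3 : ∑ l ∈ range (p + 1), (R p (2 * p * k) l - cc p) ^ 2 ≤
        ∑ l ∈ range (p + 1), D p k * |R p (2 * p * k) l - cc p| := by
      refine Finset.sum_le_sum ?_
      intro l hl
      rw [Finset.mem_range] at hl
      exact hs l (by omega)
    rw [← Finset.mul_sum] at h3
    simp only
    linarith
  have h2 := Ln_le p (2 * p * k)
  nlinarith

/-- One sweep. -/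
lemma sweep (p : ℕ) (hp : 1 ≤ p) (k : ℕ) :
    D p k ^ 2 ≤ 3 / 2 * p * (En p (2 * p * k) - En p (2 * p * (k + 1))) := by
  set N := 2 * p * k with hN
  set d : ℕ → ℝ := fun i => R p (N + i) (i + 1) - R p (N + i) i with hd
  have hdn : ∀ i, i < p → 0 ≤ d i := by
    intro i hi
    have := R_mono p hp (N + i) i hi
    simp only [hd]
    linarith
  have hzi : ∀ i, i ≤ p → zig p (N + i) = i := fun i hi => zig_up p k i hi hp
  have hdrop : ∀ i, i < p → En p (N + i) - En p (N + (i + 1)) = 2 / 3 * (d i) ^ 2 := by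
    intro i hi
    have h1 := En_step p (N + i)
    have h2 : N + i + 1 = N + (i + 1) := by omega
    rw [h2, hzi (i + 1) (by omega), hzi i (by omega)] at h1
    exact h1
  have htel : ∀ j, j ≤ p → En p N - En p (N + j) = ∑ i ∈ range j, 2 / 3 * (d i) ^ 2 := by
    intro j
    induction j with
    | zero => intro _; simp
    | succ j ih =>
      intro hj
      rw [Finset.sum_range_succ, ← ih (by omega), ← hdrop j (by omega)]
      ring
  -- labels above the token are untouched
  have hunt : ∀ j, j < p → R p (N + j) p = R p N p := by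
    intro j
    induction j with
    | zero => intro _; rfl
    | succ j ih =>
      intro hj
      have e : N + (j + 1) = N + j + 1 := by omega
      rw [e, R_other, ih (by omega)]
      rw [← e, hzi (j + 1) (by omega)]
      omega
  have hunt2 : ∀ j l, j < l → l ≤ p → R p (N + j) l = R p N l := by
    intro j
    induction j with
    | zero => intro l _ _; rfl
    | succ j ih =>
      intro l hj hl
      have e : N + (j + 1) = N + j + 1 := by omega
      rw [e, R_other, ih l (by omega) hl]
      rw [← e, hzi (j + 1) (by omega)]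
      omega
  have htok : ∀ j, j ≤ p → R p (N + j) j - R p N 0 ≤ ∑ i ∈ range j, d i := by
    intro j
    induction j with
    | zero => intro _; simp
    | succ j ih =>
      intro hj
      have h1 := ih (by omega)
      have h2 := R_self p (N + j)
      have e : N + j + 1 = N + (j + 1) := by omega
      rw [e, hzi (j + 1) (by omega), hzi j (by omega)] at h2
      rw [Finset.sum_range_succ, h2]
      have h3 := hdn j (by omega)
      simp only [hd] at h3 ⊢
      linarith
  have hD : D p k ≤ ∑ i ∈ range p, d i := by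
    obtain ⟨q, rfl⟩ : ∃ q, p = q + 1 := ⟨p - 1, by omega⟩
    rw [Finset.sum_range_succ]
    have h1 := htok q (by omega)
    have h2 := hunt2 q (q + 1) (by omega) le_rfl
    have h3 : d q = R (q + 1) (N + q) (q + 1) - R (q + 1) (N + q) q := rfl
    unfold D
    rw [← hN]
    rw [h2] at h3
    linarith
  have hcs : (∑ i ∈ range p, d i) ^ 2 ≤ p * ∑ i ∈ range p, (d i) ^ 2 := by
    have := sq_sum_le_card_mul_sum_sq (s := range p) (f := d)
    rwa [Finset.card_range] at this
  have h1 := htel p le_rfl
  rw [← Finset.mul_sum] at h1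
  have h2 : En p (2 * p * (k + 1)) ≤ En p (N + p) := by
    apply En_anti'
    have : 2 * p * (k + 1) = N + 2 * p := by rw [hN]; ring
    omega
  have h3 := D_nonneg p hp k
  have h4 : D p k ^ 2 ≤ (∑ i ∈ range p, d i) ^ 2 := pow_le_pow_left₀ h3 hD 2
  have h5 : (0 : ℝ) ≤ p := by positivity
  have h6 : (p : ℝ) * ∑ i ∈ range p, (d i) ^ 2 = 3 / 2 * p * (En p N - En p (N + p)) := by
    rw [h1]; ring
  have h7 : 3 / 2 * (p : ℝ) * (En p N - En p (N + p)) ≤
      3 / 2 * p * (En p N - En p (2 * p * (k + 1))) := by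
    apply mul_le_mul_of_nonneg_left _ (by positivity)
    linarith
  linarith

/-- Nash type decay of the energy. -/
lemma En_decay (p : ℕ) (hp : 1 ≤ p) (k : ℕ) : (k : ℝ) * En p (2 * p * k) ≤ 54 * p := by
  induction k with
  | zero => simp
  | succ k ih =>
    have h1 := sweep p hp k
    have h2 := En_le_D p hp k
    have h3 := D_nonneg p hp k
    have h4 := En_nonneg p (2 * p * k)
    have h5 := En_nonneg p (2 * p * (k + 1))
    set E := En p (2 * p * k)
    set E' := En p (2 * p * (k + 1))
    have hp' : (0 : ℝ) < p := by exact_mod_cast hp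
    have h6 : E ^ 2 ≤ 54 * p * (E - E') := by
      have : E ^ 2 ≤ (6 * D p k) ^ 2 := pow_le_pow_left₀ h4 h2 2
      nlinarith
    have h7 : (0 : ℝ) ≤ k := by positivity
    push_cast
    -- (k+1) E' ≤ A where A = 54 p, A E' ≤ A E - E^2
    set A : ℝ := 54 * p with hA
    have hA0 : 0 < A := by positivity
    have h8 : A * E' ≤ E * (A - E) := by nlinarith
    have h9 : A * ((k + 1) * E') ≤ A * A := by
      have h10 : A * ((k + 1) * E') ≤ (k + 1) * (E * (A - E)) := by
        have := mul_le_mul_of_nonneg_left h8 (by positivity : (0 : ℝ) ≤ k + 1)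
        linarith
      rcases le_total E A with h11 | h11
      · have h12 : (k + 1) * (E * (A - E)) ≤ (A + E) * (A - E) := by
          have h13 : (k + 1) * E ≤ A + E := by linarith
          have := mul_le_mul_of_nonneg_right h13 (by linarith : 0 ≤ A - E)
          linarith
        nlinarith
      · have h12 : (k + 1) * (E * (A - E)) ≤ 0 := by
          apply mul_nonpos_of_nonneg_of_nonpos (by positivity)
          apply mul_nonpos_of_nonneg_of_nonpos h4
          linarith
        nlinarith
    exact le_of_mul_le_mul_left h9 hA0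

/-- Decay of the spread. -/
lemma D_decay (p : ℕ) (hp : 1 ≤ p) (k : ℕ) (hk : 1 ≤ k) : (k : ℝ) * D p (2 * k) ≤ 9 * p := by
  have h1 : ∀ j : ℕ, (j : ℝ) * D p (k + j) ^ 2 ≤
      3 / 2 * p * (En p (2 * p * k) - En p (2 * p * (k + j))) := by
    intro j
    induction j with
    | zero => simp
    | succ j ih =>
      have h2 := sweep p hp (k + j)
      have h3 := D_anti p hp (k + j) (k + (j + 1)) (by omega)
      have h4 := D_nonneg p hp (k + (j + 1))
      have h5 : D p (k + (j + 1)) ^ 2 ≤ D p (k + j) ^ 2 := pow_le_pow_left₀ h4 h3 2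
      have e : k + j + 1 = k + (j + 1) := by omega
      rw [e] at h2
      have h6 : (j : ℝ) * D p (k + (j + 1)) ^ 2 ≤ j * D p (k + j) ^ 2 :=
        mul_le_mul_of_nonneg_left h5 (by positivity)
      push_cast
      nlinarith
  have h2 := h1 k
  have e : k + k = 2 * k := by ring
  rw [e] at h2
  have h3 := En_decay p hp k
  have h4 := En_nonneg p (2 * p * (2 * k))
  have hk' : (0 : ℝ) < k := by exact_mod_cast hk
  have hp' : (0 : ℝ) < p := by exact_mod_cast hp
  have h5 : (k : ℝ) * D p (2 * k) ^ 2 ≤ 3 / 2 * p * En p (2 * p * k) := by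
    have : 3 / 2 * (p : ℝ) * (En p (2 * p * k) - En p (2 * p * (2 * k))) ≤
        3 / 2 * p * En p (2 * p * k) := by
      apply mul_le_mul_of_nonneg_left _ (by positivity)
      linarith
    linarith
  have h6 : ((k : ℝ) * D p (2 * k)) ^ 2 ≤ (9 * p) ^ 2 := by
    have h7 : (k : ℝ) * (k * D p (2 * k) ^ 2) ≤ k * (3 / 2 * p * En p (2 * p * k)) :=
      mul_le_mul_of_nonneg_left h5 hk'.le
    have h8 : (3 / 2 * (p : ℝ)) * (k * En p (2 * p * k)) ≤ (3 / 2 * p) * (54 * p) :=
      mul_le_mul_of_nonneg_left h3 (by positivity)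
    nlinarith
  exact abs_le_of_sq_le_sq' h6 (by positivity) |>.2

end Pool.Agent.H521R3.TZ
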