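import Mathlib
import Pool.Agent.H521R3.TZ.Conv

/-!
# Relation-free sets with small maximum (ternary)
-/

set_option autoImplicit false

namespace Pool.Agent.H521R3.TZ

open Finset
open Pool.Agent.H219R2.DS (zig zig_le zig_zero zig_mul zig_one zig_step zig_ne sum_split sum_update
  zig_up zig_down)

lemma lower (p : ℕ) (hp : 1 ≤ p) (K : ℕ) (hK : 18 * p * (2 * p + 3) ≤ K) :
    1 - 4 / (2 * (p : ℝ) + 3) ≤ R p (2 * p * K) 0 := by
  have h1 := D_decay p hp (9 * p * (2 * p + 3)) (Nat.mul_pos (by omega) (by omega))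
  have e : 2 * (9 * p * (2 * p + 3)) = 18 * p * (2 * p + 3) := by ring
  rw [e] at h1
  have h2 := D_anti p hp _ K hK
  have h3 := cc_le p hp (2 * p * K)
  have hp' : (0 : ℝ) < p := by exact_mod_cast hp
  have h4 : D p (18 * p * (2 * p + 3)) ≤ 1 / (2 * (p : ℝ) + 3) := by
    rw [le_div_iff₀ (by positivity)]
    push_cast at h1
    have h5 : (9 * (p : ℝ)) * (D p (18 * p * (2 * p + 3)) * (2 * p + 3)) ≤ 9 * p * 1 := by
      linarith
    exact le_of_mul_le_mul_left h5 (by positivity)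
  have h5 : cc p = 1 - 3 / (2 * (p : ℝ) + 3) := by
    unfold cc
    field_simp
    ring
  have h6 : D p K = R p (2 * p * K) p - R p (2 * p * K) 0 := rfl
  have h7 : 4 / (2 * (p : ℝ) + 3) = 3 / (2 * (p : ℝ) + 3) + 1 / (2 * (p : ℝ) + 3) := by ring
  linarith

/-- The set for the parameter `p`. -/
lemma base_set (p : ℕ) (hp : 1 ≤ p) :
    ∃ A : Finset ℕ, A.card = 2 * p * (18 * p * (2 * p + 3) + p) + 1 + p ∧
      (∀ x ∈ A, 0 < x ∧ p * x ≤ 3 ^ A.card) ∧ NoRel A := by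
  set M := 18 * p * (2 * p + 3) + p with hM
  obtain ⟨A, hA1, hA2, hA3⟩ := family p M p hp hp (by omega)
  refine ⟨A, hA1, ?_, hA3⟩
  have hδ : ∀ j, j < p → (1 - 4 / (2 * (p : ℝ) + 3)) * 3 ^ (2 * p * M) ≤
      (wv p (2 * p * M) (2 * p * (M - j)) : ℝ) := by
    intro j hj
    have h4 := lower p hp (M - j) (by omega)
    have h5 : (wv p (2 * p * M) (2 * p * (M - j)) : ℝ) =
        R p (2 * p * (M - j)) 0 * 3 ^ (2 * p * M) := by
      unfold wv R
      rw [zig_mul]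
      have hle : 2 * p * (M - j) ≤ 2 * p * M := Nat.mul_le_mul_left _ (Nat.sub_le _ _)
      have h6 : (3 : ℝ) ^ (2 * p * M) = 3 ^ (2 * p * M - 2 * p * (M - j)) *
          3 ^ (2 * p * (M - j)) := by
        rw [← pow_add]; congr 1; omega
      rw [h6]
      push_cast
      field_simp
    rw [h5]
    exact mul_le_mul_of_nonneg_right h4 (by positivity)
  have hb := xv_bound p M p (4 / (2 * (p : ℝ) + 3)) hδ
  intro x hx
  obtain ⟨h1, h2⟩ := hA2 x hx
  refine ⟨h1, ?_⟩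
  have h3 : (x : ℝ) ≤ xv p M p := by exact_mod_cast h2
  have hp' : (0 : ℝ) < p := by exact_mod_cast hp
  have h4 : (p : ℝ) * (1 + 4 / (2 * (p : ℝ) + 3) * (3 ^ p - 1)) ≤ 3 * 3 ^ p := by
    have h5 : (p : ℝ) * (4 / (2 * (p : ℝ) + 3)) ≤ 2 := by
      rw [mul_div_assoc', div_le_iff₀ (by positivity)]
      linarith
    have h6 : (p : ℝ) ≤ 3 ^ p := by exact_mod_cast (Nat.lt_pow_self (by norm_num : 1 < 3)).le
    have h7 : (0 : ℝ) ≤ 3 ^ p - 1 := by
      have : (1 : ℝ) ≤ 3 ^ p := one_le_pow₀ (by norm_num)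
      linarith
    nlinarith [mul_le_mul_of_nonneg_right h5 h7]
  have h8 : (p : ℝ) * x ≤ 3 ^ A.card := by
    calc (p : ℝ) * x ≤ p * ((1 + 4 / (2 * (p : ℝ) + 3) * (3 ^ p - 1)) * 3 ^ (2 * p * M)) :=
          mul_le_mul_of_nonneg_left (h3.trans hb) hp'.le
      _ = (p * (1 + 4 / (2 * (p : ℝ) + 3) * (3 ^ p - 1))) * 3 ^ (2 * p * M) := by ring
      _ ≤ (3 * 3 ^ p) * 3 ^ (2 * p * M) := mul_le_mul_of_nonneg_right h4 (by positivity)
      _ = 3 ^ A.card := by
          rw [hA1, pow_add, pow_add]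
          ring
  exact_mod_cast h8

/-- Tripling and adding `1`. -/
lemma extend (A : Finset ℕ) (hA : ∀ x ∈ A, 0 < x) (hrel : NoRel A) :
    ∃ A' : Finset ℕ, A'.card = A.card + 1 ∧ NoRel A' ∧
      ∀ x ∈ A', 0 < x ∧ (x = 1 ∨ ∃ y ∈ A, x = 3 * y) := by
  have hinj : Function.Injective (fun x : ℕ => 3 * x) := by
    intro a b h
    simp only at h
    omega
  have hnot : (1 : ℕ) ∉ A.map ⟨fun x => 3 * x, hinj⟩ := by
    rw [Finset.mem_map]
    rintro ⟨x, _, hx⟩
    simp only [Function.Embedding.coeFn_mk] at hx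
    omega
  refine ⟨insert 1 (A.map ⟨fun x => 3 * x, hinj⟩), ?_, ?_, ?_⟩
  · rw [Finset.card_insert_of_notMem hnot, Finset.card_map]
  · intro c hc hsum
    rw [Finset.sum_insert hnot, Finset.sum_map] at hsum
    simp only [Function.Embedding.coeFn_mk] at hsum
    have h1 : ∑ x ∈ A, c (3 * x) * ((3 * x : ℕ) : ℤ) = 3 * ∑ x ∈ A, c (3 * x) * (x : ℤ) := by
      rw [Finset.mul_sum]
      refine Finset.sum_congr rfl ?_
      intro x _
      push_cast
      ring
    rw [h1] at hsum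
    have h2 := abs_le.mp (hc 1 (Finset.mem_insert_self _ _))
    push_cast at hsum
    have h3 : c 1 = 0 := by omega
    have h4 : ∑ x ∈ A, c (3 * x) * (x : ℤ) = 0 := by omega
    have h5 := hrel (fun x => c (3 * x)) (fun x hx => hc _ (Finset.mem_insert_of_mem
      (Finset.mem_map_of_mem _ hx))) h4
    intro x hx
    rw [Finset.mem_insert] at hx
    rcases hx with rfl | hx
    · exact h3
    · rw [Finset.mem_map] at hx
      obtain ⟨y, hy, rfl⟩ := hx
      exact h5 y hy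
  · intro x hx
    rw [Finset.mem_insert] at hx
    rcases hx with rfl | hx
    · exact ⟨by norm_num, Or.inl rfl⟩
    · rw [Finset.mem_map] at hx
      obtain ⟨y, hy, rfl⟩ := hx
      simp only [Function.Embedding.coeFn_mk]
      have := hA y hy
      exact ⟨by omega, Or.inr ⟨y, hy, rfl⟩⟩

/-- Relation-free `k`-element sets with maximum at most `3 ^ k / p` for all `k ≥ 184 p ^ 3`. -/
theorem exists_set (p : ℕ) (hp : 1 ≤ p) (k : ℕ) (hk : 184 * p ^ 3 ≤ k) :
    ∃ A : Finset ℕ, A.card = k ∧ (∀ x ∈ A, 0 < x ∧ p * x ≤ 3 ^ k) ∧ NoRel A := by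
  set N := 2 * p * (18 * p * (2 * p + 3) + p) + 1 + p with hN
  have hNk : N ≤ 184 * p ^ 3 := by
    have h1 : p ^ 2 ≤ p ^ 3 := Nat.pow_le_pow_right hp (by norm_num)
    have h2 : p ≤ p ^ 3 := by
      calc p = p ^ 1 := (pow_one p).symm
        _ ≤ p ^ 3 := Nat.pow_le_pow_right hp (by norm_num)
    have h3 : 1 ≤ p ^ 3 := Nat.one_le_pow _ _ hp
    have h4 : N = 72 * p ^ 3 + 110 * p ^ 2 + p + 1 := by rw [hN]; ring
    omega
  have hpN : p ≤ 3 ^ N := by
    have h1 : p < 3 ^ p := Nat.lt_pow_self (by norm_num)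
    have h2 : 3 ^ p ≤ 3 ^ N := Nat.pow_le_pow_right (by norm_num) (by omega)
    omega
  have key : ∀ s, ∃ A : Finset ℕ, A.card = N + s ∧ (∀ x ∈ A, 0 < x ∧ p * x ≤ 3 ^ (N + s)) ∧
      NoRel A := by
    intro s
    induction s with
    | zero =>
      obtain ⟨A, h1, h2, h3⟩ := base_set p hp
      refine ⟨A, h1, ?_, h3⟩
      rw [h1] at h2
      exact h2
    | succ s ih =>
      obtain ⟨A, h1, h2, h3⟩ := ih
      obtain ⟨A', h4, h5, h6⟩ := extend A (fun x hx => (h2 x hx).1) h3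
      refine ⟨A', by omega, ?_, h5⟩
      intro x hx
      obtain ⟨h7, h8⟩ := h6 x hx
      refine ⟨h7, ?_⟩
      rcases h8 with rfl | ⟨y, hy, rfl⟩
      · rw [mul_one]
        exact hpN.trans (Nat.pow_le_pow_right (by norm_num) (by omega))
      · have h9 := (h2 y hy).2
        have h10 : 3 ^ (N + (s + 1)) = 3 * 3 ^ (N + s) := by rw [← add_assoc, pow_succ]; ring
        rw [h10]
        calc p * (3 * y) = 3 * (p * y) := by ring
          _ ≤ 3 * 3 ^ (N + s) := Nat.mul_le_mul_left _ h9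
  obtain ⟨A, h1, h2, h3⟩ := key (k - N)
  have e : N + (k - N) = k := by omega
  rw [e] at h1 h2
  exact ⟨A, h1, h2, h3⟩

/-- Powers of three. -/
theorem exists_trivial (k : ℕ) (hk : 1 ≤ k) :
    ∃ A : Finset ℕ, A.card = k ∧ (∀ x ∈ A, 0 < x ∧ 3 * x ≤ 3 ^ k) ∧ NoRel A := by
  induction k, hk using Nat.le_induction with
  | base =>
    refine ⟨{1}, by simp, by simp, ?_⟩
    intro c _ h
    simpa using h
  | succ k _ ih =>
    obtain ⟨A, h1, h2, h3⟩ := ih
    obtain ⟨A', h4, h5, h6⟩ := extend A (fun x hx => (h2 x hx).1) h3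
    refine ⟨A', by omega, ?_, h5⟩
    intro x hx
    obtain ⟨h7, h8⟩ := h6 x hx
    refine ⟨h7, ?_⟩
    rcases h8 with rfl | ⟨y, hy, rfl⟩
    · rw [pow_succ]
      have : 1 ≤ 3 ^ k := Nat.one_le_pow _ _ (by norm_num)
      omega
    · have h9 := (h2 y hy).2
      rw [pow_succ]
      omega

end Pool.Agent.H521R3.TZ
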