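import Mathlib
import Pool.Agent.H521R3.TZ.Upper

/-!
# The lower bound: a variance argument (ternary)
-/

set_option autoImplicit false

namespace Pool.Agent.H521R3.TZ

open Finset

/-- Distinct integers have a large sum of squares. -/
lemma sum_sq_ge (N : ℕ) : ∀ T : Finset ℤ, T.card = N →
    ∑ j ∈ range N, ((j : ℤ)) ^ 2 ≤ 4 * ∑ s ∈ T, s ^ 2 := by
  induction N with
  | zero =>
    intro T hT
    rw [Finset.card_eq_zero] at hT
    simp [hT]
  | succ N ih =>
    intro T hT
    have hne : T.Nonempty := by rw [← Finset.card_pos]; omega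
    obtain ⟨a, ha, hmax⟩ := Finset.exists_max_image T (fun s => |s|) hne
    have h1 := ih (T.erase a) (by rw [Finset.card_erase_of_mem ha, hT]; omega)
    rw [← Finset.add_sum_erase T _ ha, Finset.sum_range_succ]
    have h2 : (N : ℤ) ≤ 2 * |a| := by
      have hsub : T ⊆ Finset.Icc (-|a|) |a| := by
        intro s hs
        rw [Finset.mem_Icc]
        exact abs_le.mp (hmax s hs)
      have h3 := Finset.card_le_card hsub
      rw [hT, Int.card_Icc] at h3
      have h4 : 0 ≤ |a| := abs_nonneg a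
      omega
    have h3 : (N : ℤ) ^ 2 ≤ 4 * a ^ 2 := by
      have h4 : (N : ℤ) ^ 2 ≤ (2 * |a|) ^ 2 := pow_le_pow_left₀ (by positivity) h2 2
      rw [mul_pow, sq_abs] at h4
      linarith
    linarith

lemma sum_range_sq (N : ℕ) : 6 * ∑ j ∈ range N, ((j : ℤ)) ^ 2 = (N - 1) * N * (2 * N - 1) := by
  induction N with
  | zero => simp
  | succ N ih =>
    rw [Finset.sum_range_succ, mul_add, ih]
    push_cast
    ring

/-- The set of centred sums. -/
lemma centred (B : Finset ℕ) (hB : NoRel B) :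
    ∀ B' ⊆ B, ∃ T : Finset ℤ, T.card = 3 ^ B'.card ∧
      (∀ s ∈ T, ∃ c : ℕ → ℤ, (∀ x, |c x| ≤ 1) ∧ s = ∑ x ∈ B', c x * (x : ℤ)) ∧
      3 * ∑ s ∈ T, s ^ 2 = 2 * 3 ^ B'.card * ∑ x ∈ B', (x : ℤ) ^ 2 := by
  classical
  intro B'
  induction B' using Finset.induction_on with
  | empty =>
    intro _
    refine ⟨{0}, by simp, ?_, by simp⟩
    intro s hs
    rw [Finset.mem_singleton] at hs
    exact ⟨fun _ => 0, by simp, by simp [hs]⟩
  | insert b B' hb ih =>
    intro hsub
    have hbB : b ∈ B := hsub (Finset.mem_insert_self _ _)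
    obtain ⟨T, hT1, hT2, hT3⟩ := ih (fun x hx => hsub (Finset.mem_insert_of_mem hx))
    -- relation argument
    have hrel : ∀ (d : ℤ), d ≠ 0 → |d| ≤ 2 → ∀ s ∈ T, ∀ s' ∈ T, s' + d * b ≠ s := by
      intro d hd0 hd s hs s' hs' heq
      obtain ⟨c, hc, hcs⟩ := hT2 s hs
      obtain ⟨c', hc', hcs'⟩ := hT2 s' hs'
      have h1 := hB (fun x => if x = b then d else if x ∈ B' then c' x - c x else 0) (by
        intro x _
        split_ifs with h h
        · exact hd
        · have h1 := abs_le.mp (hc x)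
          have h2 := abs_le.mp (hc' x)
          rw [abs_le]
          constructor <;> linarith
        · norm_num) (by
        have h2 : ∑ x ∈ B, (if x = b then d else if x ∈ B' then c' x - c x else 0) * (x : ℤ) =
            ∑ x ∈ insert b B', (if x = b then d else if x ∈ B' then c' x - c x else 0) * (x : ℤ) := by
          symm
          apply Finset.sum_subset hsub
          intro x _ hx
          rw [Finset.mem_insert, not_or] at hx
          rw [if_neg hx.1, if_neg hx.2, zero_mul]
        rw [h2, Finset.sum_insert hb, if_pos rfl]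
        have h3 : ∑ x ∈ B', (if x = b then d else if x ∈ B' then c' x - c x else 0) * (x : ℤ) =
            ∑ x ∈ B', c' x * (x : ℤ) - ∑ x ∈ B', c x * (x : ℤ) := by
          rw [← Finset.sum_sub_distrib]
          refine Finset.sum_congr rfl ?_
          intro x hx
          have hxb : x ≠ b := fun h => hb (h ▸ hx)
          rw [if_neg hxb, if_pos hx]
          ring
        rw [h3, ← hcs, ← hcs']
        linarith) b hbB
      rw [if_pos rfl] at h1
      exact hd0 h1
    have hinj : ∀ d : ℤ, Function.Injective (fun s : ℤ => s + d * b) := by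
      intro d x y h
      simpa using h
    set T0 := T.map ⟨_, hinj 0⟩ with hT0
    set T1 := T.map ⟨_, hinj 1⟩ with hT1'
    set T2 := T.map ⟨_, hinj (-1)⟩ with hT2'
    have hdisj : ∀ d e : ℤ, d - e ≠ 0 → |d - e| ≤ 2 →
        Disjoint (T.map ⟨_, hinj d⟩) (T.map ⟨_, hinj e⟩) := by
      intro d e hde hde2
      rw [Finset.disjoint_left]
      intro x hx hx'
      rw [Finset.mem_map] at hx hx'
      obtain ⟨s, hs, h1⟩ := hx
      obtain ⟨s', hs', h2⟩ := hx'
      simp only [Function.Embedding.coeFn_mk] at h1 h2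
      apply hrel (d - e) hde hde2 s' hs' s hs
      rw [← h2] at h1
      linarith
    have hd01 : Disjoint T0 T1 := hdisj 0 1 (by norm_num) (by norm_num)
    have hd02 : Disjoint T0 T2 := hdisj 0 (-1) (by norm_num) (by norm_num)
    have hd12 : Disjoint T1 T2 := hdisj 1 (-1) (by norm_num) (by norm_num)
    have hd : Disjoint (T0 ∪ T1) T2 := by
      rw [Finset.disjoint_union_left]
      exact ⟨hd02, hd12⟩
    refine ⟨T0 ∪ T1 ∪ T2, ?_, ?_, ?_⟩
    · rw [Finset.card_union_of_disjoint hd, Finset.card_union_of_disjoint hd01, hT0, hT1', hT2',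
        Finset.card_map, Finset.card_map, Finset.card_map, hT1, Finset.card_insert_of_notMem hb,
        pow_succ]
      ring
    · have hgen : ∀ d : ℤ, |d| ≤ 1 → ∀ s ∈ T.map ⟨_, hinj d⟩,
          ∃ c : ℕ → ℤ, (∀ x, |c x| ≤ 1) ∧ s = ∑ x ∈ insert b B', c x * (x : ℤ) := by
        intro d hd1 s hs
        rw [Finset.mem_map] at hs
        obtain ⟨s', hs', h1⟩ := hs
        simp only [Function.Embedding.coeFn_mk] at h1
        obtain ⟨c, hc, hcs⟩ := hT2 s' hs'
        refine ⟨fun x => if x = b then d else c x, ?_, ?_⟩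
        · intro x
          simp only
          split_ifs
          · exact hd1
          · exact hc x
        · rw [Finset.sum_insert hb]
          simp only [if_true]
          have h3 : ∑ x ∈ B', (if x = b then d else c x) * (x : ℤ) = ∑ x ∈ B', c x * (x : ℤ) := by
            refine Finset.sum_congr rfl ?_
            intro x hx
            have hxb : x ≠ b := fun h => hb (h ▸ hx)
            rw [if_neg hxb]
          rw [h3, ← hcs]
          linarith
      intro s hs
      rw [Finset.mem_union, Finset.mem_union] at hs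
      rcases hs with (hs | hs) | hs
      · exact hgen 0 (by norm_num) s hs
      · exact hgen 1 (by norm_num) s hs
      · exact hgen (-1) (by norm_num) s hs
    · rw [Finset.sum_union hd, Finset.sum_union hd01, hT0, hT1', hT2', Finset.sum_map,
        Finset.sum_map, Finset.sum_map, Finset.card_insert_of_notMem hb, Finset.sum_insert hb,
        pow_succ]
      simp only [Function.Embedding.coeFn_mk]
      have h1 : ∑ x ∈ T, (x + 0 * (b : ℤ)) ^ 2 + ∑ x ∈ T, (x + 1 * (b : ℤ)) ^ 2 +
          ∑ x ∈ T, (x + -1 * (b : ℤ)) ^ 2 = 3 * ∑ x ∈ T, x ^ 2 + 2 * (T.card : ℤ) * (b : ℤ) ^ 2 := by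
        rw [← Finset.sum_add_distrib, ← Finset.sum_add_distrib]
        have h2 : ∀ x ∈ T, (x + 0 * (b : ℤ)) ^ 2 + (x + 1 * (b : ℤ)) ^ 2 + (x + -1 * (b : ℤ)) ^ 2 =
            3 * x ^ 2 + 2 * (b : ℤ) ^ 2 := by
          intro x _
          ring
        rw [Finset.sum_congr rfl h2, Finset.sum_add_distrib, ← Finset.mul_sum, Finset.sum_const,
          nsmul_eq_mul]
        ring
      rw [h1, hT1]
      push_cast
      linear_combination 3 * hT3

/-- The variance lower bound. -/
theorem lower_bound (B : Finset ℕ) (hB : NoRel B) (hk : 1 ≤ B.card) (m : ℕ)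
    (hm : ∀ x ∈ B, x ≤ m) : 9 ^ B.card ≤ 16 * B.card * m ^ 2 := by
  obtain ⟨T, h1, -, h3⟩ := centred B hB B (Finset.Subset.refl _)
  have h4 := sum_sq_ge _ T rfl
  have h5 := sum_range_sq T.card
  set N : ℤ := (T.card : ℤ) with hN
  have h6 : N = 3 ^ B.card := by rw [hN, h1]; push_cast; rfl
  have h7 : (3 : ℤ) ≤ N := by
    rw [h6]
    calc (3 : ℤ) = 3 ^ 1 := by norm_num
      _ ≤ 3 ^ B.card := pow_le_pow_right₀ (by norm_num) hk
  have h8 : ∑ x ∈ B, (x : ℤ) ^ 2 ≤ B.card * (m : ℤ) ^ 2 := by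
    calc ∑ x ∈ B, (x : ℤ) ^ 2 ≤ ∑ x ∈ B, (m : ℤ) ^ 2 := by
          refine Finset.sum_le_sum ?_
          intro x hx
          have := hm x hx
          exact pow_le_pow_left₀ (by positivity) (by exact_mod_cast this) 2
      _ = B.card * (m : ℤ) ^ 2 := by rw [Finset.sum_const, nsmul_eq_mul]
  rw [← h6] at h3
  -- 24 Σ s² ≥ N (N-1)(2N-1) ≥ N³ ; 24 Σ s² = 16 N Σ x²
  have h9 : N * N ^ 2 ≤ N * (16 * (B.card * (m : ℤ) ^ 2)) := by
    have h10 : (N - 1) * N * (2 * N - 1) ≤ 24 * ∑ s ∈ T, s ^ 2 := by linarith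
    have h11 : 24 * ∑ s ∈ T, s ^ 2 = 16 * N * ∑ x ∈ B, (x : ℤ) ^ 2 := by linarith
    have h12 : 16 * N * ∑ x ∈ B, (x : ℤ) ^ 2 ≤ 16 * N * (B.card * (m : ℤ) ^ 2) :=
      mul_le_mul_of_nonneg_left h8 (by linarith)
    have h13 : N * N ^ 2 ≤ (N - 1) * N * (2 * N - 1) := by nlinarith
    linarith
  have h10 : N ^ 2 ≤ 16 * (B.card * (m : ℤ) ^ 2) := le_of_mul_le_mul_left h9 (by linarith)
  have h11 : (9 : ℤ) ^ B.card ≤ 16 * B.card * (m : ℤ) ^ 2 := by
    have : (9 : ℤ) ^ B.card = N ^ 2 := by rw [h6, ← pow_mul, mul_comm, pow_mul]; norm_num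
    rw [this]
    linarith
  exact_mod_cast h11

end Pool.Agent.H521R3.TZ
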